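import Pool.Agent.Vrl.Main
import Pool.Agent.Vrl.Lower

/-!
MP_a4b5be_co (complexity of the Euclidean Voronoi diagram of lines in three-space): arbitrary
distinct points, one on each line, and independent random directions. The expected total number of
faces of the Voronoi diagram is `O(n^(3/2))`, and for suitable points it is at least `k n^(3/2)`.
-/

set_option autoImplicit false

namespace Pool.Agent.Results.MP_a4b5be_co.RandomDirections

open MeasureTheory Set
open scoped ENNReal NNReal

/-- Three-dimensional Euclidean space. -/
abbrev Space := EuclideanSpace ℝ (Fin 3)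

/-- The line through `p` with direction `u` (a line if `u ≠ 0`). -/
def line (p u : Space) : Set Space := {y | ∃ t : ℝ, y = p + t • u}

/-- The set of (the numbers of) all nearest lines of `x` among the lines `line (a i) (v i)`. -/
def nearest {n : ℕ} (v a : Fin n → Space) (x : Space) : Set (Fin n) :=
  {i | ∀ j, Metric.infDist x (line (a i) (v i)) ≤ Metric.infDist x (line (a j) (v j))}

/-- The faces of all dimensions (cells, 2-faces, edges, vertices) of the Voronoi diagram of the
lines: the connected components of the sets on which `nearest` is constant. -/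
def faces {n : ℕ} (v a : Fin n → Space) : Set (Set Space) :=
  {f | ∃ x, f = connectedComponentIn {y | nearest v a y = nearest v a x} x}

/-- The complexity of the Voronoi diagram: the number of its faces of all dimensions. -/
noncomputable def complexity {n : ℕ} (v a : Fin n → Space) : ℝ≥0∞ :=
  (((faces v a).encard : ℕ∞) : ℝ≥0∞)

/-- The Lebesgue measure of the closed unit ball. -/
noncomputable def ball : Measure Space := volume.restrict (Metric.closedBall 0 1)

/-- For all `0 < c` and `C` there are constants `0 < k` and `K` with the following two properties,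
where `v i` are independent random vectors whose laws `μ i` lie between `c` and `C` times the
Lebesgue measure of the unit ball (so the directions `v i / |v i|` are independent; for the uniform
law on the ball they are uniform on the sphere).
(1) Let `a i` be `n ≥ 1` arbitrary distinct points. Then almost surely all `v i` are different from
zero and the lines `line (a i) (v i)` are pairwise disjoint, and the total number of faces of their
Voronoi diagram has a measurable majorant with expectation at most `K n^(3/2)`.
(2) For every `n ≥ 2` there are `n` distinct points `a i` such that for all laws `μ i` as above the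
number of faces has a measurable minorant with expectation at least `k n^(3/2)`. -/
theorem result (c C : ℝ≥0) (hc : 0 < c) : ∃ k K : ℝ, 0 < k ∧ 0 < K ∧
    (∀ (n : ℕ) (a : Fin n → Space) (μ : Fin n → Measure Space), 0 < n → Function.Injective a →
      (∀ i, IsProbabilityMeasure (μ i)) → (∀ i, c • ball ≤ μ i ∧ μ i ≤ C • ball) →
      (∃ F : (Fin n → Space) → ℝ≥0∞, Measurable F ∧ (∀ v, complexity v a ≤ F v) ∧
        ∫⁻ v, F v ∂(Measure.pi μ) ≤ ENNReal.ofReal (K * n ^ (3 / 2 : ℝ))) ∧
      ∀ᵐ v ∂(Measure.pi μ), (∀ i, v i ≠ 0) ∧
        ∀ i j, i ≠ j → Disjoint (line (a i) (v i)) (line (a j) (v j))) ∧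
    ∀ n : ℕ, 2 ≤ n → ∃ a : Fin n → Space, Function.Injective a ∧
      ∀ μ : Fin n → Measure Space,
      (∀ i, IsProbabilityMeasure (μ i)) → (∀ i, c • ball ≤ μ i ∧ μ i ≤ C • ball) →
      ∃ g : (Fin n → Space) → ℝ≥0∞, Measurable g ∧ (∀ v, g v ≤ complexity v a) ∧
        ENNReal.ofReal (k * n ^ (3 / 2 : ℝ)) ≤ ∫⁻ v, g v ∂(Measure.pi μ) := by
  obtain ⟨K, hK, h⟩ := Vrl.main (c := c) (C := C) hc
  obtain ⟨k, hk, hl⟩ := Vrl.lower (c := c) (C := C) hc
  refine ⟨k, K, hk, hK, ?_, ?_⟩
  · intro n a μ hn ha hp hμ
    obtain ⟨h1, h2⟩ := h n a μ hn ha hp (fun i => (hμ i).2) (fun i => (hμ i).1)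
    refine ⟨h1, ?_⟩
    have h3 : ∀ᵐ v ∂(Measure.pi μ), ∀ i, v i ≠ 0 := by
      rw [ae_all_iff]
      intro i
      have hac : μ i ≪ (volume : Measure Space) :=
        (Measure.absolutelyContinuous_of_le (hμ i).2).trans
          ((Measure.smul_absolutelyContinuous).trans Measure.absolutelyContinuous_restrict)
      have h0 : ∀ᵐ w ∂(μ i), w ≠ 0 := by
        rw [ae_iff]
        apply hac
        simp
      exact (measurePreserving_eval μ i).quasiMeasurePreserving.ae h0
    filter_upwards [h2, h3] with v hv hv'
    exact ⟨hv', hv⟩
  · intro n hn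
    exact ⟨Vrl.pts n, Vrl.pts_injective n, fun μ hp hμ =>
      hl n hn μ hp (fun i => (hμ i).2) (fun i => (hμ i).1)⟩

end Pool.Agent.Results.MP_a4b5be_co.RandomDirections
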