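import Pool.Agent.Van.Sum
import Pool.Agent.Vsn.Low

/-!
MP_a4b5be_co (complexity of the Euclidean Voronoi diagram of lines in three-space): smoothed
complexity. The directions of the `n` lines are arbitrary and fixed, the positions are independent
random points with log-Lipschitz densities (noise of size `s`). The expected number of faces of the
Voronoi diagram (of all dimensions, counted as connected components) which meet the unit ball is
`O(n^(3/2) / s^(1/2) + 1 / s^3)`. The first term is attained for `s ≥ 1/n`, so the order of the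
smoothed complexity is `n^(3/2) / s^(1/2)` for `n^(-3/5) ≤ s ≤ 1`; it is `O(n^2)` for `s ≥ n^(-2/3)`.
-/

set_option autoImplicit false

namespace Pool.Agent.Results.MP_a4b5be_co.Smoothed

open MeasureTheory Set
open scoped ENNReal NNReal

/-- Three-dimensional Euclidean space. -/
abbrev Space := EuclideanSpace ℝ (Fin 3)

/-- The line through `p` with direction `u`. -/
def line (p u : Space) : Set Space := {y | ∃ t : ℝ, y = p + t • u}

/-- The set `Φ(x)`: the numbers of the lines nearest to `x` among the lines `line (p i) (u i)`. -/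
def nearest {n : ℕ} (u p : Fin n → Space) (x : Space) : Set (Fin n) :=
  {i | ∀ j, Metric.infDist x (line (p i) (u i)) ≤ Metric.infDist x (line (p j) (u j))}

/-- The faces of the Voronoi diagram: the maximal connected sets on which `Φ` is constant, that is,
the connected components of the sets `{y | Φ(y) = Φ(x)}`. -/
def faces {n : ℕ} (u p : Fin n → Space) : Set (Set Space) :=
  {f | ∃ x, f = connectedComponentIn {y | nearest u p y = nearest u p x} x}

/-- The number (possibly infinite) of faces which meet the closed unit ball. -/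
noncomputable def complexity {n : ℕ} (u p : Fin n → Space) : ℕ∞ :=
  {f | f ∈ faces u p ∧ (f ∩ Metric.closedBall 0 1).Nonempty}.encard

/-- The joint law of independent points, number `i` with density `f i`. -/
noncomputable def law {n : ℕ} (f : Fin n → Space → ℝ≥0) : Measure (Fin n → Space) :=
  Measure.pi fun i => (volume : Measure Space).withDensity fun x => (f i x : ℝ≥0∞)

/-- The density of `q` plus exponential noise of size `s`: `e^(-|x - q| / s) / (8 π s^3)`. -/
noncomputable def noise (s : ℝ) (q x : Space) : ℝ≥0 :=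
  Real.toNNReal (Real.exp (-(‖x - q‖ / s)) / (8 * Real.pi * s ^ 3))

/-- If the points `p i` are independent with densities `f i`, the number of faces of the diagram of
the lines `line (p i) (u i)` which meet the closed unit ball has a measurable majorant with
expectation at most `b`, and almost surely the lines are pairwise disjoint. -/
def Bounded {n : ℕ} (u : Fin n → Space) (f : Fin n → Space → ℝ≥0) (b : ℝ) : Prop :=
  (∃ F : (Fin n → Space) → ℝ≥0∞, Measurable F ∧ (∀ p, (complexity u p : ℝ≥0∞) ≤ F p) ∧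
    ∫⁻ p, F p ∂(law f) ≤ ENNReal.ofReal b) ∧
  ∀ᵐ p ∂(law f), ∀ i j, i ≠ j → Disjoint (line (p i) (u i)) (line (p j) (u j))

/-- The directions of the lower bound: the first coordinate vector for even `i`, the second one for
odd `i`. -/
noncomputable def axes (n : ℕ) (i : Fin n) : Space :=
  if (i : ℕ) % 2 = 0 then EuclideanSpace.single 0 1 else EuclideanSpace.single 1 1

/-- The positions of the lower bound: `i / (4 n)` times the second coordinate vector for even `i`,
times the first one for odd `i`. -/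
noncomputable def centres (n : ℕ) (i : Fin n) : Space :=
  if (i : ℕ) % 2 = 0 then EuclideanSpace.single 1 ((i : ℝ) / (4 * n))
  else EuclideanSpace.single 0 ((i : ℝ) / (4 * n))

/-- There are absolute constants `c, C > 0` such that (A), (B), (C) hold for all `n ≥ 1`,
`0 < s ≤ 1`.
(A) For all unit vectors `u i` and all probability densities `f i` on space with
`f i x ≤ e^(|x - y| / s) f i y` for all `x`, `y`, if the points `p i` are independent with densities
`f i`, the number of faces of the Voronoi diagram of the lines `line (p i) (u i)` which meet the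
closed unit ball has a measurable majorant with expectation at most
`C (n^(3/2) / s^(1/2) + 1 / s^3)`, at most `C n^(3/2) / s^(1/2)` if `s ≥ n^(-3/5)`, and at most
`C n^2` if `s ≥ n^(-2/3)`; almost surely the lines are pairwise disjoint (`Bounded`).
(B) For all points `q i` the densities `noise s (q i)` have this property.
(C) If `1 / n ≤ s`, for the directions `axes n` (unit vectors) and the densities
`noise s (centres n i)` the number of faces which meet the closed unit ball has a measurable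
minorant with expectation at least `c n^(3/2) / s^(1/2)`. -/
theorem result : ∃ c C : ℝ, 0 < c ∧ 0 < C ∧ ∀ (n : ℕ) (s : ℝ), 0 < n → 0 < s → s ≤ 1 →
    (∀ (u : Fin n → Space) (f : Fin n → Space → ℝ≥0), (∀ i, ‖u i‖ = 1) → (∀ i, Measurable (f i)) →
      (∀ i, ∫⁻ x, f i x = 1) → (∀ i x y, (f i x : ℝ) ≤ Real.exp (‖x - y‖ / s) * f i y) →
      Bounded u f (C * (n ^ (3 / 2 : ℝ) / Real.sqrt s + 1 / s ^ 3)) ∧
      ((n : ℝ) ^ (-(3 / 5) : ℝ) ≤ s → Bounded u f (C * (n ^ (3 / 2 : ℝ) / Real.sqrt s))) ∧
      ((n : ℝ) ^ (-(2 / 3) : ℝ) ≤ s → Bounded u f (C * n ^ 2))) ∧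
    (∀ q : Fin n → Space, (∀ i, Measurable (noise s (q i))) ∧ (∀ i, ∫⁻ x, noise s (q i) x = 1) ∧
      ∀ i x y, (noise s (q i) x : ℝ) ≤ Real.exp (‖x - y‖ / s) * noise s (q i) y) ∧
    (1 / (n : ℝ) ≤ s → (∀ i, ‖axes n i‖ = 1) ∧ ∃ G : (Fin n → Space) → ℝ≥0∞, Measurable G ∧
      (∀ p, G p ≤ (complexity (axes n) p : ℝ≥0∞)) ∧
      ENNReal.ofReal (c * (n ^ (3 / 2 : ℝ) / Real.sqrt s)) ≤
        ∫⁻ p, G p ∂(law fun i => noise s (centres n i))) := by
  obtain ⟨C, hC, hup⟩ := Van.main_sharp
  obtain ⟨c, hc, hlow⟩ := Vsn.lower_small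
  refine ⟨c, 2 * C, hc, by positivity, fun n s hn hs hs1 => ⟨?_, ?_, ?_⟩⟩
  · intro u f hu hm h1 hL
    have hl : 1 ≤ 1 / s := by rw [le_div_iff₀ hs]; linarith
    have hL' : ∀ i, Vsn.LL (1 / s) (f i) := fun i x y => by
      rw [one_div_mul_eq_div]
      exact hL i x y
    obtain ⟨F, hF, hle, hb⟩ := hup n (1 / s) u f hn hl hu hm h1 hL'
    have hnr : (0 : ℝ) < n := by exact_mod_cast hn
    have hn1 : (1 : ℝ) ≤ n := by exact_mod_cast hn
    have hss : 0 < Real.sqrt s := Real.sqrt_pos.2 hs
    have e1 : Real.sqrt (1 / s) * (n : ℝ) ^ (3 / 2 : ℝ) + (1 / s) ^ 3 =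
        n ^ (3 / 2 : ℝ) / Real.sqrt s + 1 / s ^ 3 := by
      rw [one_div_pow, Real.sqrt_div zero_le_one, Real.sqrt_one]
      ring
    rw [e1] at hb
    have hp1 : 0 ≤ (n : ℝ) ^ (3 / 2 : ℝ) / Real.sqrt s := by positivity
    have hpos : 0 ≤ (n : ℝ) ^ (3 / 2 : ℝ) / Real.sqrt s + 1 / s ^ 3 := by positivity
    have : ∀ i, IsProbabilityMeasure
        ((volume : Measure Space).withDensity (fun x => (f i x : ℝ≥0∞))) :=
      fun i => Vor.main_prob (h1 i)
    have hae : ∀ᵐ p ∂(law f), ∀ i j, i ≠ j → Disjoint (line (p i) (u i)) (line (p j) (u j)) :=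
      Vor.ae_disjoint (u := u)
        (fun i => (volume : Measure Space).withDensity (fun x => (f i x : ℝ≥0∞)))
        (fun i => withDensity_absolutelyContinuous _ _)
    have hsq : 0 < Real.sqrt n := Real.sqrt_pos.2 hnr
    have hs2 : Real.sqrt n * Real.sqrt n = n := Real.mul_self_sqrt hnr.le
    have hs3 : Real.sqrt s * Real.sqrt s = s := Real.mul_self_sqrt hs.le
    have h32 : (n : ℝ) ^ (3 / 2 : ℝ) = n * Real.sqrt n := by
      rw [Real.sqrt_eq_rpow]
      nth_rewrite 2 [← Real.rpow_one (n : ℝ)]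
      rw [← Real.rpow_add hnr]
      norm_num
    refine ⟨⟨⟨F, hF, hle, hb.trans (ENNReal.ofReal_le_ofReal ?_)⟩, hae⟩, fun h =>
      ⟨⟨F, hF, hle, hb.trans (ENNReal.ofReal_le_ofReal ?_)⟩, hae⟩, fun h =>
      ⟨⟨F, hF, hle, hb.trans (ENNReal.ofReal_le_ofReal ?_)⟩, hae⟩⟩
    · have := mul_nonneg hC.le hpos
      linarith
    · have h5 : 1 ≤ s ^ 5 * (n : ℝ) ^ 3 := by
        have a : ((n : ℝ) ^ (-(3 / 5) : ℝ)) ^ 5 ≤ s ^ 5 :=
          pow_le_pow_left₀ (Real.rpow_nonneg hnr.le _) h 5
        rw [← Real.rpow_natCast, ← Real.rpow_mul hnr.le] at a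
        have e : (-(3 / 5) : ℝ) * ((5 : ℕ) : ℝ) = -((3 : ℕ) : ℝ) := by norm_num
        rw [e, Real.rpow_neg hnr.le, Real.rpow_natCast] at a
        calc (1 : ℝ) = ((n : ℝ) ^ 3)⁻¹ * (n : ℝ) ^ 3 := by field_simp
          _ ≤ s ^ 5 * (n : ℝ) ^ 3 := mul_le_mul_of_nonneg_right a (by positivity)
      have a1 : 1 / s ^ 3 ≤ (n : ℝ) ^ (3 / 2 : ℝ) / Real.sqrt s := by
        rw [h32, div_le_div_iff₀ (by positivity) hss, one_mul]
        refine abs_le_of_sq_le_sq' ?_ (by positivity) |>.2
        have e2 : (n * Real.sqrt n * s ^ 3) ^ 2 = (s ^ 5 * (n : ℝ) ^ 3) * s := by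
          calc (n * Real.sqrt n * s ^ 3) ^ 2 = n ^ 2 * (Real.sqrt n * Real.sqrt n) * s ^ 6 := by ring
            _ = (s ^ 5 * (n : ℝ) ^ 3) * s := by rw [hs2]; ring
        rw [e2, sq, hs3]
        exact le_mul_of_one_le_left hs.le h5
      have := mul_le_mul_of_nonneg_left a1 hC.le
      linarith
    · have h3 : 1 ≤ s ^ 3 * (n : ℝ) ^ 2 := by
        have a : ((n : ℝ) ^ (-(2 / 3) : ℝ)) ^ 3 ≤ s ^ 3 :=
          pow_le_pow_left₀ (Real.rpow_nonneg hnr.le _) h 3
        rw [← Real.rpow_natCast, ← Real.rpow_mul hnr.le] at a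
        have e : (-(2 / 3) : ℝ) * ((3 : ℕ) : ℝ) = -((2 : ℕ) : ℝ) := by norm_num
        rw [e, Real.rpow_neg hnr.le, Real.rpow_natCast] at a
        calc (1 : ℝ) = ((n : ℝ) ^ 2)⁻¹ * (n : ℝ) ^ 2 := by field_simp
          _ ≤ s ^ 3 * (n : ℝ) ^ 2 := mul_le_mul_of_nonneg_right a (by positivity)
      have hns : 1 ≤ n * s := by
        by_contra hcon
        have hlt : n * s < 1 := not_le.1 hcon
        have h0 : 0 ≤ n * s := by positivity
        have b : (n * s) ^ 3 < 1 := by
          calc (n * s) ^ 3 < 1 ^ 3 := pow_lt_pow_left₀ hlt h0 (by norm_num)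
            _ = 1 := one_pow 3
        have b2 : (n * s) ^ 3 = n * (s ^ 3 * (n : ℝ) ^ 2) := by ring
        rw [b2] at b
        nlinarith
      have a1 : (n : ℝ) ^ (3 / 2 : ℝ) / Real.sqrt s ≤ n ^ 2 := by
        rw [h32, div_le_iff₀ hss]
        have k : 1 ≤ Real.sqrt n * Real.sqrt s := by
          rw [← Real.sqrt_mul hnr.le]
          exact Real.one_le_sqrt.2 hns
        calc (n : ℝ) * Real.sqrt n ≤ (n : ℝ) * Real.sqrt n * (Real.sqrt n * Real.sqrt s) :=
              le_mul_of_one_le_right (by positivity) k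
          _ = n * (Real.sqrt n * Real.sqrt n) * Real.sqrt s := by ring
          _ = n ^ 2 * Real.sqrt s := by rw [hs2]; ring
      have a2 : 1 / s ^ 3 ≤ (n : ℝ) ^ 2 := by
        rw [div_le_iff₀ (by positivity)]
        linarith
      calc C * ((n : ℝ) ^ (3 / 2 : ℝ) / Real.sqrt s + 1 / s ^ 3) ≤ C * (n ^ 2 + n ^ 2) :=
            mul_le_mul_of_nonneg_left (add_le_add a1 a2) hC.le
        _ = 2 * C * n ^ 2 := by ring
  · intro q
    refine ⟨fun i => (Vsn.lap_LL hs (q i)).2, fun i => Vsn.lap_int hs (q i), fun i x y => ?_⟩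
    have h := (Vsn.lap_LL hs (q i)).1 x y
    rw [one_div_mul_eq_div] at h
    exact h
  · intro h
    refine ⟨fun i => ?_, hlow n s hn h hs1⟩
    unfold axes
    split_ifs <;> simp

end Pool.Agent.Results.MP_a4b5be_co.Smoothed
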