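import Pool.Agent.Vcp.Exact
import Pool.Agent.Vct.Rep

/-!
MP_a4b5be_co (complexity of the Euclidean Voronoi diagram of lines in three-space): a deterministic
case. If the squared distance functions of all but `m` of the `n` lines span a space of dimension at
most five then the Voronoi diagram has at most `C (m + 1)^8 n^2` faces of all dimensions. The other
`m` lines are arbitrary, no general position is assumed. For `m = 0` this is `C n^2`. The hypothesis
on the `n - m` lines holds if they cross a common line at right angles and if they meet three given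
pairwise skew lines (the rulings of quadrics). The order `n^2` is attained: for the rulings of the
paraboloid `z = x y` the number of faces is `4 n^2 - 14 n + 15`.
-/

set_option autoImplicit false

namespace Pool.Agent.Results.MP_a4b5be_co.SpanFive

/-- Three-dimensional Euclidean space. -/
abbrev Space := EuclideanSpace ℝ (Fin 3)

/-- The line through `p` with direction `u` (a line if `u ≠ 0`). -/
def line (p u : Space) : Set Space := {y | ∃ t : ℝ, y = p + t • u}

/-- The set of (the numbers of) all nearest lines of `x` among the lines `line (a i) (v i)`. -/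
def nearest {n : ℕ} (v a : Fin n → Space) (x : Space) : Set (Fin n) :=
  {i | ∀ j, Metric.infDist x (line (a i) (v i)) ≤ Metric.infDist x (line (a j) (v j))}

/-- The faces of all dimensions (cells, 2-faces, edges, vertices) of the Voronoi diagram of the
lines: the connected components of the sets on which `nearest` is constant. -/
def faces {n : ℕ} (v a : Fin n → Space) : Set (Set Space) :=
  {f | ∃ x, f = connectedComponentIn {y | nearest v a y = nearest v a x} x}

/-- The square of the distance to the line `line p u`, a real function on the space. -/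
noncomputable def sqDist (p u : Space) : Space → ℝ := fun x => Metric.infDist x (line p u) ^ 2

/-- The dimension of the vector space of functions on the space which is spanned by the squared
distance functions of the lines `line (a i) (v i)` with `i` in `G`. -/
noncomputable def spanDim {n : ℕ} (v a : Fin n → Space) (G : Finset (Fin n)) : ℕ :=
  Module.finrank ℝ (Submodule.span ℝ ((fun i => sqDist (a i) (v i)) '' (G : Set (Fin n))))

/-- There is an absolute constant `C` such that, for all `n ≥ 1`, all `n` lines and every set `G` of
them whose squared distance functions span a space of dimension at most five, the Voronoi diagram of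
the `n` lines has at most `C (m + 1)^8 n^2` faces, where `m = n - |G|` is the number of the other
lines, which are arbitrary.
Scope: the hypothesis on `G` holds (a) if all lines of `G` cross one line `line b w` at right angles,
that is if they meet it and are orthogonal to it, and (b) if each line of `G` meets three given
pairwise skew lines `line (b k) (w k)`, `k = 0, 1, 2` (disjoint, with linearly independent
directions).
Sharpness: for all `n ≥ 2` and all distinct `t 0, .., t (n-1)` the lines through `(t i, 0, 0)` with
the directions `(0, 1, t i)` (pairwise disjoint, as in (a) with `b = 0` and `w = (1, 0, 0)`) have a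
Voronoi diagram with exactly `4 n^2 - 14 n + 15` faces. -/
theorem result : (∃ C : ℕ, ∀ (n : ℕ) (v a : Fin n → Space) (G : Finset (Fin n)), 0 < n →
      (∀ i, v i ≠ 0) → spanDim v a G ≤ 5 →
      (faces v a).encard ≤ ((C * (n - G.card + 1) ^ 8 * n ^ 2 : ℕ) : ℕ∞)) ∧
    (∀ (n : ℕ) (b w : Space) (v a : Fin n → Space) (G : Finset (Fin n)), w ≠ 0 →
      (∀ i ∈ G, v i ≠ 0 ∧ inner ℝ (v i) w = 0 ∧ ¬ Disjoint (line (a i) (v i)) (line b w)) →
      spanDim v a G ≤ 5) ∧
    (∀ (n : ℕ) (b w : Fin 3 → Space) (v a : Fin n → Space) (G : Finset (Fin n)),
      (∀ k l, k ≠ l → Disjoint (line (b k) (w k)) (line (b l) (w l)) ∧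
        LinearIndependent ℝ ![w k, w l]) →
      (∀ i ∈ G, v i ≠ 0 ∧ ∀ k, ¬ Disjoint (line (a i) (v i)) (line (b k) (w k))) →
      spanDim v a G ≤ 5) ∧
    ∀ (n : ℕ) (t : Fin n → ℝ), 2 ≤ n → Function.Injective t →
      (∀ i j, i ≠ j → Disjoint (line (!₂[t i, 0, 0] : Space) (!₂[0, 1, t i] : Space))
        (line (!₂[t j, 0, 0] : Space) (!₂[0, 1, t j] : Space))) ∧
      (faces (fun i => (!₂[0, 1, t i] : Space)) (fun i => (!₂[t i, 0, 0] : Space))).encard =
        ((4 * n ^ 2 + 15 - 14 * n : ℕ) : ℕ∞) := by
  refine ⟨⟨10 ^ 31, fun n v a G hn hv h => Vct.rge hn v a hv G h⟩,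
    fun n b w v a G hw hG => Vct.sca b hw v a G hG,
    fun n b w v a G hb hG => Vct.scb b w (fun k l h => (hb k l h).1) (fun k l h => (hb k l h).2)
      v a G (fun i hi => (hG i hi).1) (fun i hi => (hG i hi).2),
    fun n t hn ht => ⟨fun i j hij => ?_, Vcp.fin hn ht⟩⟩
  have e : ∀ k, (!₂[t k, 0, 0] : Space) = (0 : Space) + t k • (!₂[1, 0, 0] : Space) := by
    intro k
    ext l
    fin_cases l <;> simp
  rw [e i, e j]
  refine Vcp.dis 0 _ ?_ (fun h => hij (ht h)) ?_ ?_
  · rw [EuclideanSpace.norm_eq, Fin.sum_univ_three]
    simp
  · rw [PiLp.inner_apply, Fin.sum_univ_three]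
    simp
  · rw [PiLp.inner_apply, Fin.sum_univ_three]
    simp

end Pool.Agent.Results.MP_a4b5be_co.SpanFive
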