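import Pool.Agent.Vws.Main
import Pool.Agent.Vlb.Main

/-!
MP_a4b5be_co (complexity of the Euclidean Voronoi diagram of lines in three-space): smoothed
complexity of the complete diagram. Positions and directions of the `n` lines are independent random
vectors with Lipschitz densities in the unit ball (arbitrary lines with noise of any fixed size).
The expected number of all faces of the Voronoi diagram is of the exact order `n^(3/2)`.
-/

set_option autoImplicit false

namespace Pool.Agent.Results.MP_a4b5be_co.WholeSpace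

open MeasureTheory Set
open scoped ENNReal NNReal

/-- Three-dimensional Euclidean space. -/
abbrev Space := EuclideanSpace ℝ (Fin 3)

/-- The line through `p` with direction `v` (for `v ≠ 0`). -/
def line (p v : Space) : Set Space := {y | ∃ t : ℝ, y = p + t • v}

/-- The set `Φ(x)`: the numbers of the lines nearest to `x` among the lines `line (p i) (v i)`. -/
def nearest {n : ℕ} (v p : Fin n → Space) (x : Space) : Set (Fin n) :=
  {i | ∀ j, Metric.infDist x (line (p i) (v i)) ≤ Metric.infDist x (line (p j) (v j))}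

/-- The faces of the Voronoi diagram: the maximal connected sets on which `Φ` is constant, that is,
the connected components of the sets `{y | Φ(y) = Φ(x)}`. -/
def faces {n : ℕ} (v p : Fin n → Space) : Set (Set Space) :=
  {f | ∃ x, f = connectedComponentIn {y | nearest v p y = nearest v p x} x}

/-- The complexity of the Voronoi diagram: the number of all its faces (possibly infinite). -/
noncomputable def complexity {n : ℕ} (v p : Fin n → Space) : ℕ∞ := (faces v p).encard

/-- The joint law of independent vectors, number `i` with density `f i`. -/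
noncomputable def law {n : ℕ} (f : Fin n → Space → ℝ≥0) : Measure (Fin n → Space) :=
  Measure.pi fun i => (volume : Measure Space).withDensity fun x => (f i x : ℝ≥0∞)

/-- The density of `q` plus a random vector of length at most `s`:
`(3 / (π s^4)) (s - |x - q|)` for `|x - q| ≤ s`, and 0 otherwise. -/
noncomputable def noise (s : ℝ) (q x : Space) : ℝ≥0 :=
  Real.toNNReal (3 / (Real.pi * s ^ 4) * (s - ‖x - q‖))

/-- `(p, v)` has the joint law of the independent families with the densities `f` and `g`: the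
expected complexity of the diagram of the lines `line (p i) (v i)` lies between `b` and `B` (there
are a measurable minorant with expectation at least `b` and a measurable majorant with expectation
at most `B`), and almost surely all `v i` are nonzero and the lines are pairwise disjoint. -/
def Between {n : ℕ} (f g : Fin n → Space → ℝ≥0) (b B : ℝ) : Prop :=
  (∃ G F : (Fin n → Space) × (Fin n → Space) → ℝ≥0∞, Measurable G ∧ Measurable F ∧
    (∀ p v, G (p, v) ≤ (complexity v p : ℝ≥0∞) ∧ (complexity v p : ℝ≥0∞) ≤ F (p, v)) ∧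
    ENNReal.ofReal b ≤ ∫⁻ q, G q ∂((law f).prod (law g)) ∧
    ∫⁻ q, F q ∂((law f).prod (law g)) ≤ ENNReal.ofReal B) ∧
  ∀ᵐ q ∂((law f).prod (law g)), (∀ i, q.2 i ≠ 0) ∧
    ∀ i j, i ≠ j → Disjoint (line (q.1 i) (q.2 i)) (line (q.1 j) (q.2 j))

theorem general (K : ℝ≥0) : ∃ c C : ℝ, 0 < c ∧ 0 < C ∧ ∀ n : ℕ, 0 < n →
    ∀ f g : Fin n → Space → ℝ≥0, (∀ i, LipschitzWith K (f i)) → (∀ i, LipschitzWith K (g i)) →
    (∀ i x, 1 < ‖x‖ → f i x = 0) → (∀ i x, 1 < ‖x‖ → g i x = 0) →
    (∀ i, ∫⁻ x, f i x = 1) → (∀ i, ∫⁻ x, g i x = 1) →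
    Between f g (c * n ^ (3 / 2 : ℝ)) (C * n ^ (3 / 2 : ℝ)) := by
  obtain ⟨C, hC, h⟩ := Vws.main_whole K
  obtain ⟨c, hc, h'⟩ := Vlb.lower_whole K
  refine ⟨c, C, hc, hC, fun n hn f g hf hg hf0 hg0 hf1 hg1 => ⟨?_, ?_⟩⟩
  · obtain ⟨F, hF, hle, hb⟩ := h n hn f g hf hg hf0 hg0 hf1 hg1
    obtain ⟨G, hG, hle', hb'⟩ := h' n hn f g hf hg hf0 hg0 hf1 hg1
    exact ⟨G, F, hG, hF, fun p v => ⟨hle' (p, v), hle (p, v)⟩, hb', hb⟩
  · have pf : ∀ i, IsProbabilityMeasure
        ((volume : Measure Space).withDensity (fun x => (f i x : ℝ≥0∞))) :=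
      fun i => Vor.main_prob (hf1 i)
    have pg : ∀ i, IsProbabilityMeasure
        ((volume : Measure Space).withDensity (fun x => (g i x : ℝ≥0∞))) :=
      fun i => Vor.main_prob (hg1 i)
    exact Vws.ae_disjoint2
      (fun i => (volume : Measure Space).withDensity (fun x => (f i x : ℝ≥0∞)))
      (fun i => (volume : Measure Space).withDensity (fun x => (g i x : ℝ≥0∞)))
      (fun i => withDensity_absolutelyContinuous _ _)
      (fun i => withDensity_absolutelyContinuous _ _)

/-- (A) For every `K` there are constants `c, C > 0` such that for all `n ≥ 1` and all `K`-Lipschitz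
probability densities `f i`, `g i` vanishing outside the unit ball, if all the `p i` and `v i` are
independent with densities `f i` and `g i`, the expected complexity of the Voronoi diagram of the
lines `p i + ℝ v i` (all faces, whole space) lies between `c n^(3/2)` and `C n^(3/2)` (`Between`),
and almost surely the lines are nondegenerate and pairwise disjoint.
(B) For every `s > 0` there are constants `c, C > 0` such that the same holds for all points `q i`
and vectors `w i` with `|q i| + s ≤ 1`, `|w i| + s ≤ 1`, if `p i` is `q i` plus noise and `v i` is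
`w i` plus noise, all the noises independent, of length at most `s` and with the density
`noise s 0`. -/
theorem result :
    (∀ K : ℝ≥0, ∃ c C : ℝ, 0 < c ∧ 0 < C ∧ ∀ n : ℕ, 0 < n → ∀ f g : Fin n → Space → ℝ≥0,
      (∀ i, LipschitzWith K (f i)) → (∀ i, LipschitzWith K (g i)) →
      (∀ i x, 1 < ‖x‖ → f i x = 0) → (∀ i x, 1 < ‖x‖ → g i x = 0) →
      (∀ i, ∫⁻ x, f i x = 1) → (∀ i, ∫⁻ x, g i x = 1) →
      Between f g (c * n ^ (3 / 2 : ℝ)) (C * n ^ (3 / 2 : ℝ))) ∧
    ∀ s : ℝ, 0 < s → ∃ c C : ℝ, 0 < c ∧ 0 < C ∧ ∀ n : ℕ, 0 < n → ∀ q w : Fin n → Space,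
      (∀ i, ‖q i‖ + s ≤ 1) → (∀ i, ‖w i‖ + s ≤ 1) →
      (∀ i, ∫⁻ x, noise s (q i) x = 1) ∧ (∀ i, ∫⁻ x, noise s (w i) x = 1) ∧
      Between (fun i => noise s (q i)) (fun i => noise s (w i)) (c * n ^ (3 / 2 : ℝ))
        (C * n ^ (3 / 2 : ℝ)) := by
  refine ⟨general, fun s hs => ?_⟩
  obtain ⟨c, C, hc, hC, h⟩ := general (Real.toNNReal (3 / (Real.pi * s ^ 4)))
  refine ⟨c, C, hc, hC, fun n hn q w hq hw => ?_⟩
  have h1 : ∀ i, ∫⁻ x, (noise s (q i) x : ℝ≥0∞) = 1 := fun i => Vor.tent_int hs (q i)
  have h2 : ∀ i, ∫⁻ x, (noise s (w i) x : ℝ≥0∞) = 1 := fun i => Vor.tent_int hs (w i)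
  exact ⟨h1, h2, h n hn (fun i => noise s (q i)) (fun i => noise s (w i))
    (fun i => Vor.tent_lip hs (q i)) (fun i => Vor.tent_lip hs (w i))
    (fun i x hx => Vor.tent_zero hs (hq i) x hx) (fun i x hx => Vor.tent_zero hs (hw i) x hx) h1 h2⟩

end Pool.Agent.Results.MP_a4b5be_co.WholeSpace
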